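import Pool.Agent.R688.LOC.Elem

set_option autoImplicit false

open CategoryTheory Limits

/-!
# Direct sums of complexes of modules
-/

namespace Pool.Agent.R688.LOC

universe u

variable {R : Type u} [Ring R] {ι : Type u} [DecidableEq ι]

/-- the direct sum of a family of complexes -/
noncomputable def dsum (K : ι → CochainComplex (ModuleCat.{u} R) ℤ) :
    CochainComplex (ModuleCat.{u} R) ℤ where
  X n := ModuleCat.of R (Π₀ i, (K i).X n)
  d n m := ModuleCat.ofHom (DFinsupp.mapRange.linearMap (fun i => ((K i).d n m).hom))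
  shape n m h := by
    apply ModuleCat.hom_ext
    apply LinearMap.ext
    intro x
    apply DFinsupp.ext
    intro i
    change ((K i).d n m).hom (x i) = 0
    rw [(K i).shape n m h]
    rfl
  d_comp_d' n m l _ _ := by
    apply ModuleCat.hom_ext
    apply LinearMap.ext
    intro x
    apply DFinsupp.ext
    intro i
    change ((K i).d m l).hom (((K i).d n m).hom (x i)) = 0
    have := (K i).d_comp_d n m l
    exact congrArg (fun q => q.hom (x i)) this

variable (K : ι → CochainComplex (ModuleCat.{u} R) ℤ)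

/-- the coordinates -/
noncomputable def pr (n : ℤ) (i : ι) : ((dsum K).X n : ModuleCat.{u} R) →ₗ[R] (K i).X n :=
  (DFinsupp.lapply i : (Π₀ i, (K i).X n) →ₗ[R] (K i).X n)

/-- the inclusions -/
noncomputable def sg (n : ℤ) (i : ι) : (K i).X n →ₗ[R] ((dsum K).X n : ModuleCat.{u} R) :=
  DFinsupp.lsingle (R := R) (M := fun i => ((K i).X n : ModuleCat.{u} R)) i

variable {K}

theorem ext_pr {n : ℤ} {x y : ((dsum K).X n : ModuleCat.{u} R)}
    (h : ∀ i, pr K n i x = pr K n i y) : x = y :=
  DFinsupp.ext (β := fun i => ((K i).X n : ModuleCat.{u} R)) h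

theorem ext_sg {n : ℤ} {M : Type u} [AddCommGroup M] [Module R M]
    {f g : ((dsum K).X n : ModuleCat.{u} R) →ₗ[R] M}
    (h : ∀ i x, f (sg K n i x) = g (sg K n i x)) : f = g :=
  DFinsupp.lhom_ext (M := fun i => ((K i).X n : ModuleCat.{u} R)) h

theorem pr_sg_same (n : ℤ) (i : ι) (x : (K i).X n) : pr K n i (sg K n i x) = x :=
  DFinsupp.single_eq_same (β := fun i => ((K i).X n : ModuleCat.{u} R))

theorem pr_sg_ne (n : ℤ) {i j : ι} (h : i ≠ j) (x : (K i).X n) : pr K n j (sg K n i x) = 0 :=
  DFinsupp.single_eq_of_ne (β := fun i => ((K i).X n : ModuleCat.{u} R)) h.symm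

theorem pr_d (n m : ℤ) (i : ι) (x : ((dsum K).X n : ModuleCat.{u} R)) :
    pr K m i (((dsum K).d n m).hom x) = ((K i).d n m).hom (pr K n i x) := rfl

theorem d_sg (n m : ℤ) (i : ι) (x : (K i).X n) :
    ((dsum K).d n m).hom (sg K n i x) = sg K m i (((K i).d n m).hom x) := by
  apply ext_pr
  intro j
  rw [pr_d]
  by_cases hij : i = j
  · subst hij
    rw [pr_sg_same, pr_sg_same]
  · rw [pr_sg_ne n hij, pr_sg_ne m hij, map_zero]

/-- sum of linear maps -/
noncomputable def lsum (n : ℤ) {M : Type u} [AddCommGroup M] [Module R M]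
    (g : ∀ i, (K i).X n →ₗ[R] M) : ((dsum K).X n : ModuleCat.{u} R) →ₗ[R] M :=
  (DFinsupp.lsum ℕ g : (Π₀ i, (K i).X n) →ₗ[R] M)

theorem lsum_sg (n : ℤ) {M : Type u} [AddCommGroup M] [Module R M]
    (g : ∀ i, (K i).X n →ₗ[R] M) (i : ι) (x : (K i).X n) : lsum n g (sg K n i x) = g i x :=
  DFinsupp.lsum_single (S := ℕ) (M := fun i => ((K i).X n : ModuleCat.{u} R)) g i x

variable (K)

/-- the inclusions -/
noncomputable def inc (i : ι) : K i ⟶ dsum K where
  f n := ModuleCat.ofHom (sg K n i)
  comm' n m _ := by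
    apply ModuleCat.hom_ext
    apply LinearMap.ext
    intro x
    exact d_sg n m i x

/-- the universal map -/
noncomputable def desc {L : CochainComplex (ModuleCat.{u} R) ℤ} (g : ∀ i, K i ⟶ L) :
    dsum K ⟶ L where
  f n := ModuleCat.ofHom (lsum n (fun i => ((g i).f n).hom))
  comm' n m _ := by
    apply ModuleCat.hom_ext
    apply ext_sg
    intro i x
    change (L.d n m).hom (lsum n (fun i => ((g i).f n).hom) (sg K n i x)) =
      lsum m (fun i => ((g i).f m).hom) (((dsum K).d n m).hom (sg K n i x))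
    rw [d_sg, lsum_sg, lsum_sg]
    have := (g i).comm n m
    exact congrArg (fun q => q.hom x) this

theorem inc_desc {L : CochainComplex (ModuleCat.{u} R) ℤ} (g : ∀ i, K i ⟶ L) (i : ι) :
    inc K i ≫ desc K g = g i := by
  apply HomologicalComplex.hom_ext
  intro n
  apply ModuleCat.hom_ext
  apply LinearMap.ext
  intro x
  exact lsum_sg n (fun i => ((g i).f n).hom) i x

theorem hom_ext' {L : CochainComplex (ModuleCat.{u} R) ℤ} (g h : dsum K ⟶ L)
    (hgh : ∀ i, inc K i ≫ g = inc K i ≫ h) : g = h := by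
  apply HomologicalComplex.hom_ext
  intro n
  apply ModuleCat.hom_ext
  apply ext_sg
  intro i x
  have h1 := HomologicalComplex.congr_hom (hgh i) n
  exact congrArg (fun q => q.hom x) h1

/-- the direct sum is a coproduct -/
noncomputable def isColimit : IsColimit (Cofan.mk (dsum K) (inc K)) :=
  Cofan.IsColimit.mk _ (fun s => desc K (fun i => s.inj i))
    (fun s i => inc_desc K _ i)
    (fun s m hm => hom_ext' K _ _ (fun i => by
      rw [inc_desc]; exact hm i))

variable {K}

/-- the map between direct sums -/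
noncomputable def dmap {L : ι → CochainComplex (ModuleCat.{u} R) ℤ} (s : ∀ i, K i ⟶ L i) :
    dsum K ⟶ dsum L := desc K (fun i => s i ≫ inc L i)

theorem inc_dmap {L : ι → CochainComplex (ModuleCat.{u} R) ℤ} (s : ∀ i, K i ⟶ L i) (i : ι) :
    inc K i ≫ dmap s = s i ≫ inc L i := inc_desc K _ i

theorem pr_dmap {L : ι → CochainComplex (ModuleCat.{u} R) ℤ} (s : ∀ i, K i ⟶ L i)
    (n : ℤ) (i : ι) (x : ((dsum K).X n : ModuleCat.{u} R)) :
    pr L n i (((dmap s).f n).hom x) = ((s i).f n).hom (pr K n i x) := by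
  have h : (pr L n i).comp ((dmap s).f n).hom = ((s i).f n).hom.comp (pr K n i) := by
    apply ext_sg
    intro j y
    have h1 := HomologicalComplex.congr_hom (inc_dmap s j) n
    have h2 : ((dmap s).f n).hom (sg K n j y) = sg L n j (((s j).f n).hom y) :=
      congrArg (fun q => q.hom y) h1
    rw [LinearMap.comp_apply, h2, LinearMap.comp_apply]
    by_cases hij : j = i
    · subst hij
      rw [pr_sg_same, pr_sg_same]
    · rw [pr_sg_ne n hij, pr_sg_ne n hij, map_zero]
  exact LinearMap.congr_fun h x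

/-- truncation of a family of elements to the support of another one -/
theorem exists_cut {L : ι → CochainComplex (ModuleCat.{u} R) ℤ} (n m : ℤ)
    (y : ((dsum K).X n : ModuleCat.{u} R)) (a : ∀ i, (L i).X m) :
    ∃ z : ((dsum L).X m : ModuleCat.{u} R), (∀ i, pr K n i y ≠ 0 → pr L m i z = a i) ∧
      (∀ i, pr K n i y = 0 → pr L m i z = 0) := by
  classical
  let y' : Π₀ i, (K i).X n := y
  refine ⟨(DFinsupp.mk y'.support (fun i => a i.1) : Π₀ i, (L i).X m), ?_, ?_⟩
  · intro i hi
    change (DFinsupp.mk y'.support (fun i => a i.1) : Π₀ i, (L i).X m) i = a i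
    rw [DFinsupp.mk_of_mem (by rw [DFinsupp.mem_support_toFun]; exact hi)]
  · intro i hi
    change (DFinsupp.mk y'.support (fun i => a i.1) : Π₀ i, (L i).X m) i = 0
    rw [DFinsupp.mk_of_notMem (by rw [DFinsupp.mem_support_toFun, not_not]; exact hi)]

/-- direct sums of quasi-isomorphisms are quasi-isomorphisms -/
theorem quasiIso_dmap {L : ι → CochainComplex (ModuleCat.{u} R) ℤ} (s : ∀ i, K i ⟶ L i)
    (hs : ∀ i, QuasiIso (s i)) : QuasiIso (dmap s) := by
  refine ⟨fun n => ?_⟩
  have hs' := fun i => (quasiIsoAt_iff (s i) (l := n - 1) (n := n) (m := n + 1)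
    (by omega) rfl).1 ((hs i).quasiIsoAt n)
  rw [quasiIsoAt_iff (dmap s) (l := n - 1) (n := n) (m := n + 1) (by omega) rfl]
  constructor
  · rintro x hx ⟨u, hu⟩
    have h1 : ∀ i, ∃ v : (K i).X (n - 1), ((K i).d (n - 1) n).hom v = pr K n i x := by
      intro i
      refine (hs' i).1 (pr K n i x) ?_ ⟨pr L (n - 1) i u, ?_⟩
      · rw [← pr_d, hx, map_zero]
      · rw [← pr_d, hu, pr_dmap]
    choose v hv using h1
    obtain ⟨w, hw1, hw2⟩ := exists_cut n (n - 1) x v
    refine ⟨w, ?_⟩
    apply ext_pr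
    intro i
    rw [pr_d]
    by_cases h : pr K n i x = 0
    · rw [hw2 i h, map_zero, h]
    · rw [hw1 i h, hv]
  · intro y hy
    have h1 : ∀ i, ∃ x : (K i).X n, ((K i).d n (n + 1)).hom x = 0 ∧
        ∃ u : (L i).X (n - 1), pr L n i y = ((s i).f n).hom x + ((L i).d (n - 1) n).hom u := by
      intro i
      refine (hs' i).2 (pr L n i y) ?_
      rw [← pr_d, hy, map_zero]
    choose x hx u hu using h1
    obtain ⟨x', hx1, hx2⟩ := exists_cut (K := L) (L := K) n n y x
    obtain ⟨u', hu1, hu2⟩ := exists_cut (K := L) (L := L) n (n - 1) y u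
    refine ⟨x', ?_, u', ?_⟩
    · apply ext_pr
      intro i
      rw [pr_d, map_zero]
      by_cases h : pr L n i y = 0
      · rw [hx2 i h, map_zero]
      · rw [hx1 i h, hx]
    · apply ext_pr
      intro i
      rw [map_add, pr_dmap, pr_d]
      by_cases h : pr L n i y = 0
      · rw [hx2 i h, hu2 i h, map_zero, map_zero, add_zero, h]
      · rw [hx1 i h, hu1 i h]
        exact hu i

end Pool.Agent.R688.LOC
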