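import Mathlib

set_option autoImplicit false

open CategoryTheory Limits

/-!
# Quasi-isomorphisms of complexes of modules, in terms of elements
-/

namespace Pool.Agent.R688.LOC

universe u

variable {R : Type u} [Ring R] {K L : CochainComplex (ModuleCat.{u} R) ℤ}

theorem exists_cycle (K : CochainComplex (ModuleCat.{u} R) ℤ) {n m : ℤ} (hm : n + 1 = m)
    (x : K.X n) (hx : (K.d n m).hom x = 0) :
    ∃ z : (K.cycles n : ModuleCat.{u} R), (K.iCycles n).hom z = x := by
  have h1 : (ShortComplex.mk (K.iCycles n) (K.d n m) (K.iCycles_d n m)).Exact :=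
    ShortComplex.exact_of_f_is_kernel _ (K.cyclesIsKernel n m (by simp [hm]))
  exact (ShortComplex.moduleCat_exact_iff _).1 h1 x hx

theorem iCycles_inj (K : CochainComplex (ModuleCat.{u} R) ℤ) (n : ℤ) :
    Function.Injective (K.iCycles n).hom :=
  (ModuleCat.mono_iff_injective _).1 inferInstance

theorem pi_surj (K : CochainComplex (ModuleCat.{u} R) ℤ) (n : ℤ) :
    Function.Surjective (K.homologyπ n).hom :=
  (ModuleCat.epi_iff_surjective _).1 inferInstance

theorem pi_eq_zero (K : CochainComplex (ModuleCat.{u} R) ℤ) {l n : ℤ} (hl : l + 1 = n)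
    (z : (K.cycles n : ModuleCat.{u} R)) (hz : (K.homologyπ n).hom z = 0) :
    ∃ v : K.X l, (K.toCycles l n).hom v = z := by
  have h1 : (ShortComplex.mk (K.toCycles l n) (K.homologyπ n)
      (K.toCycles_comp_homologyπ l n)).Exact :=
    ShortComplex.exact_of_g_is_cokernel _ (K.homologyIsCokernel l n (by simp [← hl]))
  exact (ShortComplex.moduleCat_exact_iff _).1 h1 z hz

theorem i_toCycles (K : CochainComplex (ModuleCat.{u} R) ℤ) (l n : ℤ) (v : K.X l) :
    (K.iCycles n).hom ((K.toCycles l n).hom v) = (K.d l n).hom v := by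
  have := K.toCycles_i l n
  exact congrArg (fun q => q.hom v) this

theorem pi_toCycles (K : CochainComplex (ModuleCat.{u} R) ℤ) (l n : ℤ) (v : K.X l) :
    (K.homologyπ n).hom ((K.toCycles l n).hom v) = 0 := by
  have := K.toCycles_comp_homologyπ l n
  exact congrArg (fun q => q.hom v) this

theorem d_i (K : CochainComplex (ModuleCat.{u} R) ℤ) (n m : ℤ)
    (z : (K.cycles n : ModuleCat.{u} R)) : (K.d n m).hom ((K.iCycles n).hom z) = 0 := by
  have := K.iCycles_d n m
  exact congrArg (fun q => q.hom z) this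

theorem i_map (f : K ⟶ L) (n : ℤ) (z : (K.cycles n : ModuleCat.{u} R)) :
    (L.iCycles n).hom ((HomologicalComplex.cyclesMap f n).hom z) =
      (f.f n).hom ((K.iCycles n).hom z) := by
  have := HomologicalComplex.cyclesMap_i f n
  exact congrArg (fun q => q.hom z) this

theorem pi_map (f : K ⟶ L) (n : ℤ) (z : (K.cycles n : ModuleCat.{u} R)) :
    (HomologicalComplex.homologyMap f n).hom ((K.homologyπ n).hom z) =
      (L.homologyπ n).hom ((HomologicalComplex.cyclesMap f n).hom z) := by
  have := HomologicalComplex.homologyπ_naturality f n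
  exact congrArg (fun q => q.hom z) this

/-- the criterion -/
theorem quasiIsoAt_iff (f : K ⟶ L) {l n m : ℤ} (hl : l + 1 = n) (hm : n + 1 = m) :
    QuasiIsoAt f n ↔
      (∀ x : K.X n, (K.d n m).hom x = 0 → (∃ u : L.X l, (L.d l n).hom u = (f.f n).hom x) →
        ∃ v : K.X l, (K.d l n).hom v = x) ∧
      (∀ y : L.X n, (L.d n m).hom y = 0 → ∃ x : K.X n, (K.d n m).hom x = 0 ∧
        ∃ u : L.X l, y = (f.f n).hom x + (L.d l n).hom u) := by
  rw [quasiIsoAt_iff_isIso_homologyMap, ConcreteCategory.isIso_iff_bijective]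
  constructor
  · rintro ⟨hinj, hsurj⟩
    constructor
    · rintro x hx ⟨u, hu⟩
      obtain ⟨z, rfl⟩ := exists_cycle K hm x hx
      have h1 : (HomologicalComplex.cyclesMap f n).hom z = (L.toCycles l n).hom u := by
        apply iCycles_inj L n
        rw [i_map, i_toCycles, hu]
      have h2 : (K.homologyπ n).hom z = 0 := by
        apply hinj
        change (HomologicalComplex.homologyMap f n).hom _ =
          (HomologicalComplex.homologyMap f n).hom 0
        rw [pi_map, h1, pi_toCycles, map_zero]
      obtain ⟨v, rfl⟩ := pi_eq_zero K hl z h2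
      exact ⟨v, (i_toCycles K l n v).symm⟩
    · intro y hy
      obtain ⟨w, rfl⟩ := exists_cycle L hm y hy
      obtain ⟨q, hq⟩ := hsurj ((L.homologyπ n).hom w)
      obtain ⟨z, rfl⟩ := pi_surj K n q
      have h1 : (L.homologyπ n).hom (w - (HomologicalComplex.cyclesMap f n).hom z) = 0 := by
        rw [map_sub, ← pi_map, sub_eq_zero]
        exact hq.symm
      obtain ⟨u, hu⟩ := pi_eq_zero L hl _ h1
      refine ⟨(K.iCycles n).hom z, d_i K n m z, u, ?_⟩
      rw [← i_map, ← i_toCycles, hu, ← map_add]
      congr 1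
      abel
  · rintro ⟨h1, h2⟩
    constructor
    · rw [injective_iff_map_eq_zero]
      intro q hq
      obtain ⟨z, rfl⟩ := pi_surj K n q
      have h3 : (L.homologyπ n).hom ((HomologicalComplex.cyclesMap f n).hom z) = 0 := by
        rw [← pi_map]; exact hq
      obtain ⟨u, hu⟩ := pi_eq_zero L hl _ h3
      obtain ⟨v, hv⟩ := h1 ((K.iCycles n).hom z) (d_i K n m z) ⟨u, by
        rw [← i_toCycles, hu, i_map]⟩
      have h4 : z = (K.toCycles l n).hom v := by
        apply iCycles_inj K n
        rw [i_toCycles, hv]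
      rw [h4, pi_toCycles]
    · intro q
      obtain ⟨w, rfl⟩ := pi_surj L n q
      obtain ⟨x, hx, u, hu⟩ := h2 ((L.iCycles n).hom w) (d_i L n m w)
      obtain ⟨z, rfl⟩ := exists_cycle K hm x hx
      refine ⟨(K.homologyπ n).hom z, ?_⟩
      change (HomologicalComplex.homologyMap f n).hom _ = _
      rw [pi_map]
      have h3 : w = (HomologicalComplex.cyclesMap f n).hom z + (L.toCycles l n).hom u := by
        apply iCycles_inj L n
        rw [map_add, i_map, i_toCycles, hu]
      rw [h3, map_add, pi_toCycles, add_zero]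

end Pool.Agent.R688.LOC
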