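import Pool.Agent.R688.LOC.Ring

set_option autoImplicit false

/-!
# The spectrum of the ring of infinitely many lines is not weakly noetherian
-/

namespace Pool.Agent.R688.LOC

/-- A subset of a topological space is Thomason if it is a union of closed subsets each having
quasi-compact complement. -/
def IsThomason {X : Type} [TopologicalSpace X] (Y : Set X) : Prop :=
  ∃ 𝒞 : Set (Set X), (∀ Z ∈ 𝒞, IsClosed Z ∧ IsCompact Zᶜ) ∧ Y = ⋃₀ 𝒞

/-- A point `x` is weakly visible if `{x} = Y₁ ∩ (X \ Y₂)` for some Thomason subsets. -/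
def IsWeaklyVisible {X : Type} [TopologicalSpace X] (x : X) : Prop :=
  ∃ Y₁ Y₂ : Set X, IsThomason Y₁ ∧ IsThomason Y₂ ∧ {x} = Y₁ ∩ Y₂ᶜ

/-- A space is weakly noetherian if all its points are weakly visible. -/
def IsWeaklyNoetherian (X : Type) [TopologicalSpace X] : Prop := ∀ x : X, IsWeaklyVisible x

variable (k : Type) [Field k]

/-- the closed point -/
noncomputable def ptm : PrimeSpectrum (Rg k) := ⟨mm k, inferInstance⟩
/-- the generic points -/
noncomputable def ptp (n : ℕ) : PrimeSpectrum (Rg k) := ⟨pp k n, inferInstance⟩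

variable {k}

theorem exists_bound_finset (s : Finset (Rg k)) (hs : ∀ a ∈ s, a ∈ mm k) :
    ∃ N, ∀ a ∈ s, ∀ n ≥ N, a ∈ pp k n := by
  classical
  induction s using Finset.induction_on with
  | empty => exact ⟨0, fun a ha => absurd ha (Finset.notMem_empty a)⟩
  | insert a s _ ih =>
    obtain ⟨N, hN⟩ := ih (fun b hb => hs b (Finset.mem_insert_of_mem hb))
    obtain ⟨M, hM⟩ := exists_bound a
    have h1 := (mem_mm a 0).1 (hs a (Finset.mem_insert_self a s))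
    refine ⟨max N M, fun b hb n hn => ?_⟩
    rcases Finset.mem_insert.1 hb with rfl | hb
    · rw [mem_pp, hM n (le_trans (le_max_right _ _) hn), h1, map_zero]
    · exact hN b hb n (le_trans (le_max_left _ _) hn)

theorem not_visible : ¬ IsWeaklyVisible (ptm k) := by
  rintro ⟨Y₁, Y₂, ⟨𝒞₁, h𝒞₁, rfl⟩, ⟨𝒞₂, h𝒞₂, rfl⟩, h⟩
  have hm : ptm k ∈ ⋃₀ 𝒞₁ ∩ (⋃₀ 𝒞₂)ᶜ := by rw [← h]; exact Set.mem_singleton _
  obtain ⟨⟨Z, hZ, hmZ⟩, hm2⟩ := hm
  obtain ⟨hcl, hcp⟩ := h𝒞₁ Z hZ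
  obtain ⟨s, hs⟩ := PrimeSpectrum.isCompact_isOpen_iff.1 ⟨hcp, hcl.isOpen_compl⟩
  have hZs : Z = PrimeSpectrum.zeroLocus (s : Set (Rg k)) := compl_injective hs.symm
  have h1 : ∀ a ∈ s, a ∈ mm k := by
    intro a ha
    rw [hZs] at hmZ
    exact hmZ ha
  obtain ⟨N, hN⟩ := exists_bound_finset s h1
  have h2 : ptp k N ∈ Z := by
    rw [hZs]
    intro a ha
    exact hN a ha N le_rfl
  have h3 : ptp k N ∉ ⋃₀ 𝒞₂ := by
    rintro ⟨Z₂, hZ₂, hpZ₂⟩
    apply hm2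
    refine ⟨Z₂, hZ₂, ?_⟩
    have h4 : ptp k N ≤ ptm k := pp_le N
    have h5 : ptp k N ⤳ ptm k := (PrimeSpectrum.le_iff_specializes _ _).1 h4
    exact h5.mem_closed (h𝒞₂ Z₂ hZ₂).1 hpZ₂
  have h6 : ptp k N ∈ ({ptm k} : Set (PrimeSpectrum (Rg k))) := by
    rw [h]
    exact ⟨⟨Z, hZ, h2⟩, h3⟩
  have h7 : pp k N = mm k := congrArg PrimeSpectrum.asIdeal h6
  exact xx_notMem N (h7 ▸ xx_mem N)

theorem not_weaklyNoetherian : ¬ IsWeaklyNoetherian (PrimeSpectrum (Rg k)) :=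
  fun h => not_visible (h (ptm k))

end Pool.Agent.R688.LOC
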