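import Pool.Agent.R688.LOC.Tors
import Pool.Agent.R688.LOC.Spec

set_option autoImplicit false
set_option linter.unusedSectionVars false
set_option linter.style.haveILetI false

open CategoryTheory Limits

/-!
# The ring of infinitely many lines is generated by its residue fields
-/

namespace Pool.Agent.R688.LOC

universe w

variable {k : Type} [Field k] [HasDerivedCategory.{w} (ModuleCat.{0} (Rg k))]
  {P : ObjectProperty (DerivedCategory (ModuleCat.{0} (Rg k)))} (hP : IsLocalizing P)

include hP in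
theorem prop_mm (h : P (sgl (R := Rg k) (mm k).ResidueField)) :
    P (sgl (R := Rg k) (Rg k ⧸ mm k)) := by
  have e : (Rg k ⧸ mm k) ≃ₗ[Rg k] (mm k).ResidueField :=
    LinearEquiv.ofBijective
      (IsScalarTower.toAlgHom (Rg k) (Rg k ⧸ mm k) (mm k).ResidueField).toLinearMap
      (mm k).bijective_algebraMap_quotient_residueField
  exact prop_equiv hP e.symm h

section line

variable (n : ℕ)

/-- the structure map to the residue field at the generic point -/
noncomputable abbrev ff : Rg k →ₗ[Rg k] (pp k n).ResidueField :=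
  Algebra.linearMap (Rg k) (pp k n).ResidueField

theorem ff_eq_zero (a : Rg k) : ff n a = 0 ↔ a ∈ pp k n :=
  Ideal.algebraMap_residueField_eq_zero

theorem ff_x_ne : ff n (xx (k := k) n) ≠ 0 := fun h => xx_notMem n ((ff_eq_zero n _).1 h)

/-- the torsion quotient -/
abbrev EE : Type := (pp k n).ResidueField ⧸ LinearMap.range (ff (k := k) n)

theorem EE_surj (e : EE (k := k) n) : ∃ e' : EE (k := k) n, xx (k := k) n • e' = e := by
  obtain ⟨y, rfl⟩ := Submodule.Quotient.mk_surjective _ e
  refine ⟨Submodule.Quotient.mk ((ff n (xx (k := k) n))⁻¹ * y), ?_⟩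
  rw [← Submodule.Quotient.mk_smul, Algebra.smul_def]
  congr 1
  exact mul_inv_cancel_left₀ (ff_x_ne n) y

theorem EE_tors (e : EE (k := k) n) : ∃ j, xx (k := k) n ^ j • e = 0 := by
  obtain ⟨y, rfl⟩ := Submodule.Quotient.mk_surjective _ e
  obtain ⟨a, s, hs, rfl⟩ := IsFractionRing.div_surjective (A := Rg k ⧸ pp k n) y
  obtain ⟨a, rfl⟩ := Ideal.Quotient.mk_surjective a
  obtain ⟨s, rfl⟩ := Ideal.Quotient.mk_surjective s
  have hs' : s ∉ pp k n := by
    intro h
    rw [← Ideal.Quotient.eq_zero_iff_mem] at h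
    exact nonZeroDivisors.ne_zero hs h
  obtain ⟨j, t, hj⟩ := exists_pow n s hs'
  refine ⟨j, ?_⟩
  rw [← Submodule.Quotient.mk_smul, Submodule.Quotient.mk_eq_zero]
  refine ⟨t * a, ?_⟩
  have h1 : ff n (xx (k := k) n ^ j) = ff n (t * s) := by
    rw [← sub_eq_zero, ← map_sub, ff_eq_zero]
    exact hj
  have h2 : ff n s ≠ 0 := fun h => hs' ((ff_eq_zero n _).1 h)
  rw [Algebra.smul_def]
  change ff n (t * a) = ff n (xx (k := k) n ^ j) * (ff n a / ff n s)
  rw [h1]
  have h3 : ∀ b c : Rg k, ff n (b * c) = ff n b * ff n c :=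
    fun b c => map_mul (algebraMap (Rg k) (pp k n).ResidueField) b c
  rw [h3, h3]
  field_simp

/-- the map onto the kernel of `x` -/
noncomputable def phi : Rg k →ₗ[Rg k] EE (k := k) n :=
  (LinearMap.range (ff (k := k) n)).mkQ.comp
    ((LinearMap.mulLeft (Rg k) (ff n (xx (k := k) n))⁻¹).comp (ff n))

theorem phi_apply (r : Rg k) : phi n r =
    Submodule.Quotient.mk ((ff n (xx (k := k) n))⁻¹ * ff n r) := rfl

theorem ker_phi : LinearMap.ker (phi (k := k) n) = mm k := by
  ext r
  rw [LinearMap.mem_ker, phi_apply, Submodule.Quotient.mk_eq_zero]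
  have h3 : ∀ b c : Rg k, ff n (b * c) = ff n b * ff n c :=
    fun b c => map_mul (algebraMap (Rg k) (pp k n).ResidueField) b c
  constructor
  · rintro ⟨a, ha⟩
    have h1 : ff n r = ff n (xx n * a) := by
      rw [h3, ha, mul_inv_cancel_left₀ (ff_x_ne n)]
    have h2 : r - xx n * a ∈ pp k n := by
      rw [← ff_eq_zero, map_sub, h1, sub_self]
    have h4 : r = (r - xx n * a) + xx n * a := by ring
    rw [h4]
    exact add_mem (pp_le n h2) (Ideal.mul_mem_right _ _ (xx_mem n))
  · intro hr
    obtain ⟨b, hb⟩ := exists_div n r hr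
    refine ⟨b, ?_⟩
    have h1 : ff n r = ff n (xx n * b) := by
      rw [← sub_eq_zero, ← map_sub, ff_eq_zero]
      exact hb
    rw [h1, h3, inv_mul_cancel_left₀ (ff_x_ne n)]

theorem range_phi : LinearMap.range (phi (k := k) n) = kr (EE (k := k) n) (xx n) 1 := by
  ext e
  rw [mem_kr, pow_one]
  constructor
  · rintro ⟨r, rfl⟩
    rw [← map_smul, smul_eq_mul]
    have h1 : xx n * r ∈ mm k := Ideal.mul_mem_right _ _ (xx_mem n)
    rw [← ker_phi n] at h1
    exact h1
  · intro he
    obtain ⟨y, rfl⟩ := Submodule.Quotient.mk_surjective _ e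
    rw [← Submodule.Quotient.mk_smul, Submodule.Quotient.mk_eq_zero] at he
    obtain ⟨r, hr⟩ := he
    refine ⟨r, ?_⟩
    rw [phi_apply, hr, Algebra.smul_def]
    congr 1
    exact inv_mul_cancel_left₀ (ff_x_ne n) y

include hP in
theorem prop_line (hm : P (sgl (R := Rg k) (Rg k ⧸ mm k)))
    (h : P (sgl (R := Rg k) (pp k n).ResidueField)) :
    P (sgl (R := Rg k) (Rg k ⧸ pp k n)) := by
  have e1 : (Rg k ⧸ mm k) ≃ₗ[Rg k] kr (EE (k := k) n) (xx n) 1 :=
    (Submodule.quotEquivOfEq _ _ (ker_phi n).symm).trans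
      ((phi (k := k) n).quotKerEquivRange.trans (LinearEquiv.ofEq _ _ (range_phi n)))
  have h1 : P (sgl (R := Rg k) (EE (k := k) n)) :=
    prop_torsion hP _ (xx n) (EE_surj n) (EE_tors n) (prop_equiv hP e1 hm)
  have h2 : P (sgl (R := Rg k) (LinearMap.range (ff (k := k) n))) := by
    refine prop₁ hP (LinearMap.range (ff (k := k) n)).subtype
      (LinearMap.range (ff (k := k) n)).mkQ (Submodule.subtype_injective _)
      (Submodule.mkQ_surjective _) ?_ h h1
    rw [LinearMap.exact_iff, Submodule.ker_mkQ, Submodule.range_subtype]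
  have hker : LinearMap.ker (ff (k := k) n) = pp k n := by
    ext a
    rw [LinearMap.mem_ker, ff_eq_zero]
  have e2 : (Rg k ⧸ pp k n) ≃ₗ[Rg k] LinearMap.range (ff (k := k) n) :=
    (Submodule.quotEquivOfEq _ _ hker.symm).trans (ff (k := k) n).quotKerEquivRange
  exact prop_equiv hP e2.symm h2

end line

section chain

variable (k) in
/-- the elements of the maximal ideal supported on the first `N` lines -/
noncomputable def Mc (N : ℕ) : Submodule (Rg k) (mm k) where
  carrier := {a | ∀ n ≥ N, pi n a.1 = 0}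
  add_mem' := by
    intro a b ha hb n hn
    change pi n (a.1 + b.1) = 0
    rw [map_add, ha n hn, hb n hn, add_zero]
  zero_mem' := by
    intro n _
    change pi n (0 : Rg k) = 0
    rw [map_zero]
  smul_mem' := by
    intro r a ha n hn
    change pi n (r * a.1) = 0
    rw [map_mul, ha n hn, mul_zero]

theorem mem_Mc (N : ℕ) (a : mm k) : a ∈ Mc k N ↔ ∀ n ≥ N, pi n a.1 = 0 := Iff.rfl

theorem Mc_mono : Monotone (Mc k) := by
  intro N M h a ha n hn
  exact ha n (le_trans h hn)

/-- removing one coordinate -/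
noncomputable def cutE (N : ℕ) (a : Rg k) (ha : a ∈ mm k) : Rg k :=
  mk (fun m => if m = N then 0 else pi m a) 0 (fun m => by
    split_ifs
    · exact map_zero _
    · exact (mem_mm a m).1 ha) (max (N + 1) (exists_bound a).choose) (fun m hm => by
    rw [if_neg (by have := le_trans (le_max_left _ _) hm; omega),
      (exists_bound a).choose_spec m (le_trans (le_max_right _ _) hm), (mem_mm a 0).1 ha])

theorem pi_cutE (N : ℕ) (a : Rg k) (ha : a ∈ mm k) (m : ℕ) :
    pi m (cutE N a ha) = if m = N then 0 else pi m a := rfl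

theorem cutE_mem (N : ℕ) (a : Rg k) (ha : a ∈ mm k) : cutE N a ha ∈ mm k := by
  rw [mem_mm _ 0, pi_cutE]
  split_ifs
  · exact map_zero _
  · exact (mem_mm a 0).1 ha

/-- the projection between consecutive members of the chain -/
noncomputable def prc (N : ℕ) : Mc k (N + 1) →ₗ[Rg k] Mc k N where
  toFun a := ⟨⟨cutE N a.1.1 a.1.2, cutE_mem _ _ _⟩, fun n hn => by
    change pi n (cutE N a.1.1 a.1.2) = 0
    rw [pi_cutE]
    split_ifs with h
    · rfl
    · exact a.2 n (by omega)⟩
  map_add' a b := by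
    apply Subtype.ext
    apply Subtype.ext
    apply ext_pi
    intro n
    have h : pi n (cutE N (a + b).1.1 (a + b).1.2) =
        pi n (cutE N a.1.1 a.1.2) + pi n (cutE N b.1.1 b.1.2) := by
      rw [pi_cutE, pi_cutE, pi_cutE]
      split_ifs
      · rw [add_zero]
      · exact map_add (pi n) a.1.1 b.1.1
    exact h.trans (map_add (pi n) _ _).symm
  map_smul' r a := by
    apply Subtype.ext
    apply Subtype.ext
    apply ext_pi
    intro n
    have h : pi n (cutE N (r • a).1.1 (r • a).1.2) =
        pi n r * pi n (cutE N a.1.1 a.1.2) := by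
      rw [pi_cutE, pi_cutE]
      split_ifs
      · rw [mul_zero]
      · exact map_mul (pi n) r a.1.1
    exact h.trans (map_mul (pi n) _ _).symm

/-- the inclusion of a line -/
noncomputable def inl' (N : ℕ) : Rg k →ₗ[Rg k] Mc k (N + 1) where
  toFun r := ⟨⟨r * xx N, Ideal.mul_mem_left _ _ (xx_mem N)⟩, fun n hn => by
    change pi n (r * xx N) = 0
    rw [map_mul, pi_xx_ne (by omega), mul_zero]⟩
  map_add' a b := by
    apply Subtype.ext
    apply Subtype.ext
    exact add_mul a b (xx N)
  map_smul' r a := by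
    apply Subtype.ext
    apply Subtype.ext
    exact mul_assoc r a (xx N)

theorem inl'_eq_zero (N : ℕ) (r : Rg k) : inl' N r = 0 ↔ r ∈ pp k N := by
  constructor
  · intro h
    have h1 : r * xx N = 0 := congrArg (fun a : Mc k (N + 1) => a.1.1) h
    have h2 := congrArg (pi N) h1
    rw [map_mul, pi_xx_same, map_zero] at h2
    exact (mul_eq_zero.1 h2).resolve_right PowerSeries.X_ne_zero
  · intro h
    apply Subtype.ext
    apply Subtype.ext
    apply ext_pi
    intro n
    change pi n (r * xx N) = pi n (0 : Rg k)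
    rw [map_mul, map_zero]
    by_cases hn : n = N
    · subst hn
      rw [mem_pp] at h
      rw [h, zero_mul]
    · rw [pi_xx_ne hn, mul_zero]

theorem prc_surj (N : ℕ) : Function.Surjective (prc (k := k) N) := by
  intro b
  refine ⟨⟨b.1, Mc_mono (Nat.le_succ N) b.2⟩, ?_⟩
  apply Subtype.ext
  apply Subtype.ext
  apply ext_pi
  intro n
  have h : pi n (cutE N b.1.1 b.1.2) = pi n b.1.1 := by
    rw [pi_cutE]
    split_ifs with h
    · exact (b.2 n (by omega)).symm
    · rfl
  exact h

theorem prc_eq_zero (N : ℕ) (a : Mc k (N + 1)) : prc N a = 0 ↔ ∃ r, inl' N r = a := by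
  constructor
  · intro h
    have h1 : cutE N a.1.1 a.1.2 = 0 := congrArg (fun b : Mc k N => b.1.1) h
    obtain ⟨g, hg⟩ := PowerSeries.X_dvd_iff.2 ((mem_mm a.1.1 N).1 a.1.2)
    obtain ⟨r, hr⟩ := pi_surj' N g
    refine ⟨r, ?_⟩
    apply Subtype.ext
    apply Subtype.ext
    apply ext_pi
    intro n
    have h3 : pi n (r * xx N) = pi n a.1.1 := by
      rw [map_mul]
      by_cases hn : n = N
      · subst hn
        rw [pi_xx_same, hr, hg, mul_comm]
      · rw [pi_xx_ne hn, mul_zero]
        have h2 := congrArg (pi n) h1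
        rw [pi_cutE, if_neg hn, map_zero] at h2
        exact h2.symm
    exact h3
  · rintro ⟨r, rfl⟩
    apply Subtype.ext
    apply Subtype.ext
    apply ext_pi
    intro n
    have h3 : pi n (cutE N (r * xx N) (Ideal.mul_mem_left _ _ (xx_mem N))) =
        pi n (0 : Rg k) := by
      rw [pi_cutE, map_zero]
      split_ifs with h
      · rfl
      · rw [map_mul, pi_xx_ne h, mul_zero]
    exact h3

include hP in
theorem prop_chain (hl : ∀ n, P (sgl (R := Rg k) (Rg k ⧸ pp k n))) (N : ℕ) :
    P (sgl (R := Rg k) (Mc k N)) := by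
  induction N with
  | zero =>
    apply prop_zero hP
    intro a
    apply Subtype.ext
    apply Subtype.ext
    apply ext_pi
    intro n
    have h3 : pi n a.1.1 = pi n (0 : Rg k) := by
      rw [map_zero]
      exact a.2 n (Nat.zero_le n)
    exact h3
  | succ N ih =>
    exact prop_cyclic hP (pp k N) (inl' N) (prc N) (inl'_eq_zero N) (prc_surj N) (prc_eq_zero N)
      (hl N) ih

end chain

include hP in
/-- the ring is in every localizing subcategory containing its residue fields -/
theorem prop_ring (h : ∀ 𝔭 : PrimeSpectrum (Rg k), P (sgl (R := Rg k) 𝔭.asIdeal.ResidueField)) :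
    P (sgl (R := Rg k) (Rg k)) := by
  have hm := prop_mm hP (h (ptm k))
  have hl : ∀ n, P (sgl (R := Rg k) (Rg k ⧸ pp k n)) :=
    fun n => prop_line hP n hm (h (ptp k n))
  have h1 : P (sgl (R := Rg k) (mm k)) := by
    refine prop_union hP (Mc k) Mc_mono ?_ (prop_chain hP hl)
    intro a
    obtain ⟨N, hN⟩ := exists_bound a.1
    refine ⟨N, fun n hn => ?_⟩
    rw [hN n hn, (mem_mm a.1 0).1 a.2, map_zero]
  refine prop₂ hP (mm k).subtype (mm k).mkQ (Submodule.subtype_injective _)
    (Submodule.mkQ_surjective _) ?_ h1 hm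
  rw [LinearMap.exact_iff, Submodule.ker_mkQ, Submodule.range_subtype]

end Pool.Agent.R688.LOC
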