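import Pool.Agent.R688.LOC.QCop

set_option autoImplicit false
set_option linter.unusedSectionVars false
set_option linter.style.haveILetI false

open CategoryTheory Limits Pretriangulated

/-!
# Localizing subcategories and modules
-/

namespace Pool.Agent.R688.LOC

universe w

variable {R : Type} [CommRing R] [HasDerivedCategory.{w} (ModuleCat.{0} R)]

/-- A localizing subcategory of `D(R)`: a full triangulated subcategory, closed under isomorphisms
and arbitrary direct sums (coproducts in `D(R)`). -/
structure IsLocalizing (P : ObjectProperty (DerivedCategory (ModuleCat.{0} R))) : Prop where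
  triangulated : P.IsTriangulated
  iso : P.IsClosedUnderIsomorphisms
  coprod : ∀ (ι : Type) (X : ι → DerivedCategory (ModuleCat.{0} R)) (c : Cofan X),
    Nonempty (IsColimit c) → (∀ i, P (X i)) → P c.pt

/-- the object `M[0]` of `D(R)` -/
noncomputable abbrev sgl (M : Type) [AddCommGroup M] [Module R M] :
    DerivedCategory (ModuleCat.{0} R) :=
  (DerivedCategory.singleFunctor (ModuleCat.{0} R) 0).obj (ModuleCat.of R M)

variable {P : ObjectProperty (DerivedCategory (ModuleCat.{0} R))} (hP : IsLocalizing P)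

section single

variable (N : ℕ → Type) [∀ n, AddCommGroup (N n)] [∀ n, Module R (N n)]

/-- the complexes `N n [0]` -/
noncomputable abbrev Ks (n : ℕ) : CochainComplex (ModuleCat.{0} R) ℤ :=
  (HomologicalComplex.single (ModuleCat.{0} R) (ComplexShape.up ℤ) 0).obj (ModuleCat.of R (N n))

/-- the complex `(⨁ N n) [0]` -/
noncomputable abbrev KS : CochainComplex (ModuleCat.{0} R) ℤ :=
  (HomologicalComplex.single (ModuleCat.{0} R) (ComplexShape.up ℤ) 0).obj
    (ModuleCat.of R (Π₀ n, N n))

/-- the inclusions -/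
noncomputable def ik (n : ℕ) : (Ks N n : CochainComplex (ModuleCat.{0} R) ℤ) ⟶ KS N :=
  (HomologicalComplex.single (ModuleCat.{0} R) (ComplexShape.up ℤ) 0).map
    (ModuleCat.ofHom (DFinsupp.lsingle (R := R) (M := N) n))

/-- the module map in degree zero -/
noncomputable def g0 {L : CochainComplex (ModuleCat.{0} R) ℤ} (g : ∀ n, Ks N n ⟶ L) (n : ℕ) :
    ModuleCat.of R (N n) ⟶ L.X 0 :=
  (HomologicalComplex.singleObjXSelf (ComplexShape.up ℤ) 0 (ModuleCat.of R (N n))).inv ≫ (g n).f 0

/-- the sum -/
noncomputable def gs {L : CochainComplex (ModuleCat.{0} R) ℤ} (g : ∀ n, Ks N n ⟶ L) :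
    ModuleCat.of R (Π₀ n, N n) ⟶ L.X 0 :=
  ModuleCat.ofHom (DFinsupp.lsum ℕ (fun n => (g0 N g n).hom))

theorem single_gs {L : CochainComplex (ModuleCat.{0} R) ℤ} (g : ∀ n, Ks N n ⟶ L) (n : ℕ) :
    ModuleCat.ofHom (DFinsupp.lsingle (R := R) (M := N) n) ≫ gs N g = g0 N g n := by
  apply ModuleCat.hom_ext
  apply LinearMap.ext
  intro x
  exact DFinsupp.lsum_single (S := ℕ) (M := N) (fun n => (g0 N g n).hom) n x

theorem hom_ext_S {M : ModuleCat.{0} R} (f g : ModuleCat.of R (Π₀ n, N n) ⟶ M)
    (h : ∀ n, ModuleCat.ofHom (DFinsupp.lsingle (R := R) (M := N) n) ≫ f =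
      ModuleCat.ofHom (DFinsupp.lsingle (R := R) (M := N) n) ≫ g) : f = g := by
  apply ModuleCat.hom_ext
  apply DFinsupp.lhom_ext
  intro n x
  exact congrArg (fun q => q.hom x) (h n)

/-- the induced map of complexes -/
noncomputable def dS {L : CochainComplex (ModuleCat.{0} R) ℤ} (g : ∀ n, Ks N n ⟶ L) :
    KS N ⟶ L :=
  HomologicalComplex.mkHomFromSingle (gs N g) (fun k hk => by
    apply hom_ext_S
    intro n
    rw [← Category.assoc, single_gs, comp_zero]
    unfold g0
    rw [Category.assoc, (g n).comm 0 k]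
    have : (Ks (R := R) N n).d 0 k = 0 := HomologicalComplex.single_obj_d _ _ _ _ _
    rw [this, zero_comp, comp_zero])

theorem ik_dS {L : CochainComplex (ModuleCat.{0} R) ℤ} (g : ∀ n, Ks N n ⟶ L) (n : ℕ) :
    ik N n ≫ dS N g = g n := by
  apply HomologicalComplex.from_single_hom_ext
  rw [HomologicalComplex.comp_f]
  unfold dS ik
  rw [HomologicalComplex.mkHomFromSingle_f, HomologicalComplex.single_map_f_self]
  rw [Category.assoc, Category.assoc, Iso.inv_hom_id_assoc, single_gs]
  unfold g0
  rw [Iso.hom_inv_id_assoc]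

theorem hom_ext_KS {L : CochainComplex (ModuleCat.{0} R) ℤ} (f g : KS N ⟶ L)
    (h : ∀ n, ik N n ≫ f = ik N n ≫ g) : f = g := by
  apply HomologicalComplex.from_single_hom_ext
  rw [← cancel_epi (HomologicalComplex.singleObjXSelf (ComplexShape.up ℤ) 0
    (ModuleCat.of R (Π₀ n, N n))).inv]
  apply hom_ext_S
  intro n
  have h1 := HomologicalComplex.congr_hom (h n) 0
  rw [HomologicalComplex.comp_f, HomologicalComplex.comp_f] at h1
  unfold ik at h1
  rw [HomologicalComplex.single_map_f_self, ← cancel_epi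
    (HomologicalComplex.singleObjXSelf (ComplexShape.up ℤ) 0 (ModuleCat.of R (N n))).inv] at h1
  simpa only [Category.assoc, Iso.inv_hom_id_assoc] using h1

/-- the complex of the direct sum is the direct sum of complexes -/
noncomputable def isoS : dsum (Ks N) ≅ (KS N : CochainComplex (ModuleCat.{0} R) ℤ) where
  hom := desc (Ks N) (ik N)
  inv := dS N (inc (Ks N))
  hom_inv_id := by
    apply hom_ext'
    intro n
    rw [← Category.assoc, inc_desc, ik_dS, Category.comp_id]
  inv_hom_id := by
    apply hom_ext_KS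
    intro n
    rw [← Category.assoc, ik_dS, inc_desc, Category.comp_id]

include hP in
theorem prop_dsum (hN : ∀ n, P (sgl (N n))) : P (sgl (R := R) (Π₀ n, N n)) := by
  have h1 := isColimit_Q (Ks N : ℕ → CochainComplex (ModuleCat.{0} R) ℤ)
  have h2 := hP.coprod ℕ _ _ h1 (fun n => hN n)
  haveI := hP.iso
  exact P.prop_of_iso (DerivedCategory.Q.mapIso (isoS N)) h2

end single

section ses

variable {M₁ M₂ M₃ : Type} [AddCommGroup M₁] [Module R M₁] [AddCommGroup M₂] [Module R M₂]
  [AddCommGroup M₃] [Module R M₃]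

include hP in
theorem prop_equiv (e : M₁ ≃ₗ[R] M₂) (h : P (sgl (R := R) M₁)) : P (sgl (R := R) M₂) := by
  haveI := hP.iso
  exact P.prop_of_iso ((DerivedCategory.singleFunctor (ModuleCat.{0} R) 0).mapIso e.toModuleIso) h

variable (f : M₁ →ₗ[R] M₂) (g : M₂ →ₗ[R] M₃) (hf : Function.Injective f)
  (hg : Function.Surjective g) (hfg : Function.Exact f g)

include hf hg hfg in
theorem exists_triangle : ∃ T ∈ distTriang (DerivedCategory (ModuleCat.{0} R)),
    T.obj₁ = sgl (R := R) M₁ ∧ T.obj₂ = sgl (R := R) M₂ ∧ T.obj₃ = sgl (R := R) M₃ := by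
  let S : ShortComplex (ModuleCat.{0} R) := ShortComplex.mk (ModuleCat.ofHom f) (ModuleCat.ofHom g)
    (by
      rw [← ModuleCat.ofHom_comp, hfg.linearMap_comp_eq_zero]
      rfl)
  have hS : S.ShortExact := by
    refine ShortComplex.ShortExact.mk' ?_ ?_ ?_
    · rw [ShortComplex.moduleCat_exact_iff_range_eq_ker]
      exact (LinearMap.exact_iff.1 hfg).symm
    · exact (ModuleCat.mono_iff_injective _).2 hf
    · exact (ModuleCat.epi_iff_surjective _).2 hg
  exact ⟨_, hS.singleTriangle_distinguished, rfl, rfl, rfl⟩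

include hP hf hg hfg in
theorem prop₁ (h2 : P (sgl (R := R) M₂)) (h3 : P (sgl (R := R) M₃)) : P (sgl (R := R) M₁) := by
  haveI := hP.iso
  haveI := hP.triangulated
  obtain ⟨T, hT, e1, e2, e3⟩ := exists_triangle f g hf hg hfg
  rw [← e1]
  exact P.ext_of_isTriangulatedClosed₁ T hT (e2 ▸ h2) (e3 ▸ h3)

include hP hf hg hfg in
theorem prop₂ (h1 : P (sgl (R := R) M₁)) (h3 : P (sgl (R := R) M₃)) : P (sgl (R := R) M₂) := by
  haveI := hP.iso
  haveI := hP.triangulated
  obtain ⟨T, hT, e1, e2, e3⟩ := exists_triangle f g hf hg hfg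
  rw [← e2]
  exact P.ext_of_isTriangulatedClosed₂ T hT (e1 ▸ h1) (e3 ▸ h3)

include hP hf hg hfg in
theorem prop₃ (h1 : P (sgl (R := R) M₁)) (h2 : P (sgl (R := R) M₂)) : P (sgl (R := R) M₃) := by
  haveI := hP.iso
  haveI := hP.triangulated
  obtain ⟨T, hT, e1, e2, e3⟩ := exists_triangle f g hf hg hfg
  rw [← e3]
  exact P.ext_of_isTriangulatedClosed₃ T hT (e1 ▸ h1) (e2 ▸ h2)

end ses

section union

variable {M : Type} [AddCommGroup M] [Module R M] (N : ℕ → Submodule R M) (hmono : Monotone N)

/-- the shift on the direct sum of a chain of submodules -/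
noncomputable def sh : (Π₀ n, N n) →ₗ[R] (Π₀ n, N n) :=
  DFinsupp.lsum ℕ (fun n => (DFinsupp.lsingle (R := R) (M := fun n => N n) (n + 1)).comp
    (Submodule.inclusion (hmono n.le_succ)))

theorem sh_single (n : ℕ) (x : N n) : sh N hmono (DFinsupp.single n x) =
    DFinsupp.single (n + 1) (Submodule.inclusion (hmono n.le_succ) x) := by
  unfold sh
  rw [DFinsupp.lsum_single]
  rfl

theorem sh_zero (y : Π₀ n, N n) : sh N hmono y 0 = 0 := by
  induction y using DFinsupp.induction with
  | h0 => rw [map_zero]; rfl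
  | ha n x y _ _ ih =>
    rw [map_add, DFinsupp.add_apply, ih, add_zero, sh_single,
      DFinsupp.single_eq_of_ne (by omega)]

theorem sh_succ (y : Π₀ n, N n) (m : ℕ) :
    sh N hmono y (m + 1) = Submodule.inclusion (hmono m.le_succ) (y m) := by
  induction y using DFinsupp.induction with
  | h0 => rw [map_zero]; rfl
  | ha n x y _ _ ih =>
    rw [map_add, DFinsupp.add_apply, DFinsupp.add_apply, ih, map_add, sh_single]
    congr 1
    by_cases hnm : m = n
    · subst hnm
      rw [DFinsupp.single_eq_same, DFinsupp.single_eq_same]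
    · rw [DFinsupp.single_eq_of_ne (by omega), DFinsupp.single_eq_of_ne hnm, map_zero]

/-- the difference map -/
noncomputable def df : (Π₀ n, N n) →ₗ[R] (Π₀ n, N n) := LinearMap.id - sh N hmono

/-- the sum map -/
noncomputable def sm : (Π₀ n, N n) →ₗ[R] M :=
  DFinsupp.lsum ℕ (fun n => (N n).subtype)

theorem sm_single (n : ℕ) (x : N n) : sm N (DFinsupp.single n x) = (x : M) := by
  unfold sm
  rw [DFinsupp.lsum_single]
  rfl

theorem df_inj : Function.Injective (df N hmono) := by
  rw [injective_iff_map_eq_zero]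
  intro y hy
  have h1 : y = sh N hmono y := sub_eq_zero.1 hy
  apply DFinsupp.ext
  intro n
  induction n with
  | zero => rw [h1, sh_zero]; rfl
  | succ n ih =>
    rw [h1, sh_succ, ih]
    rfl

theorem sm_df (y : Π₀ n, N n) : sm N (df N hmono y) = 0 := by
  induction y using DFinsupp.induction with
  | h0 => rw [map_zero, map_zero]
  | ha n x y _ _ ih =>
    rw [map_add, map_add, ih, add_zero]
    unfold df
    rw [LinearMap.sub_apply, LinearMap.id_apply, sh_single, map_sub, sm_single, sm_single]
    exact sub_self _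

theorem reduce (y : Π₀ n, N n) : ∃ m, ∀ m' ≥ m, ∃ x : N m', (x : M) = sm N y ∧
    y - DFinsupp.single m' x ∈ LinearMap.range (df N hmono) := by
  induction y using DFinsupp.induction with
  | h0 =>
    refine ⟨0, fun m' _ => ⟨0, ?_, ?_⟩⟩
    · rw [map_zero]; rfl
    · rw [DFinsupp.single_zero, sub_zero]; exact zero_mem _
  | ha n x y _ _ ih =>
    obtain ⟨m, hm⟩ := ih
    refine ⟨max m n, fun m' hm' => ?_⟩
    obtain ⟨x', hx', h1⟩ := hm m' (le_trans (le_max_left _ _) hm')
    have h2 : ∀ l ≥ n, ∃ z : N l, (z : M) = (x : M) ∧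
        (DFinsupp.single n x - DFinsupp.single l z : Π₀ n, N n) ∈
          LinearMap.range (df N hmono) := by
      intro l hl
      induction l, hl using Nat.le_induction with
      | base => exact ⟨x, rfl, by rw [sub_self]; exact zero_mem _⟩
      | succ l hl ih2 =>
        obtain ⟨z, hz, h3⟩ := ih2
        refine ⟨Submodule.inclusion (hmono l.le_succ) z, hz, ?_⟩
        have h4 : (DFinsupp.single n x -
            DFinsupp.single (l + 1) (Submodule.inclusion (hmono l.le_succ) z) : Π₀ n, N n) =
            (DFinsupp.single n x - DFinsupp.single l z) + df N hmono (DFinsupp.single l z) := by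
          unfold df
          rw [LinearMap.sub_apply, LinearMap.id_apply, sh_single]
          abel
        rw [h4]
        exact add_mem h3 ⟨_, rfl⟩
    obtain ⟨z, hz, h3⟩ := h2 m' (le_trans (le_max_right _ _) hm')
    refine ⟨z + x', ?_, ?_⟩
    · rw [map_add, sm_single, ← hx', ← hz]; rfl
    · have h4 : (DFinsupp.single n x + y - DFinsupp.single m' (z + x') : Π₀ n, N n) =
          (DFinsupp.single n x - DFinsupp.single m' z) + (y - DFinsupp.single m' x') := by
        rw [DFinsupp.single_add]
        abel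
      rw [h4]
      exact add_mem h3 h1

include hP hmono in
/-- localizing subcategories are closed under unions of chains of submodules -/
theorem prop_union (htop : ∀ x : M, ∃ n, x ∈ N n) (hN : ∀ n, P (sgl (R := R) (N n))) :
    P (sgl (R := R) M) := by
  have hS := prop_dsum hP (fun n => N n) hN
  refine prop₃ hP (df N hmono) (sm N) (df_inj N hmono) ?_ ?_ hS hS
  · intro x
    obtain ⟨n, hn⟩ := htop x
    exact ⟨DFinsupp.single n ⟨x, hn⟩, sm_single N n ⟨x, hn⟩⟩
  · intro y
    constructor
    · intro hy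
      obtain ⟨m, hm⟩ := reduce N hmono y
      obtain ⟨x, hx, h1⟩ := hm m le_rfl
      rw [hy] at hx
      have h2 : x = 0 := Subtype.ext hx
      rw [h2, DFinsupp.single_zero, sub_zero] at h1
      exact h1
    · rintro ⟨z, rfl⟩
      exact sm_df N hmono z

end union

end Pool.Agent.R688.LOC
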