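import Pool.Agent.R688.LOC.DSum

set_option autoImplicit false

open CategoryTheory Limits Pretriangulated CochainComplex HomComplex

/-!
# The localization functor to the derived category of modules preserves direct sums
-/

namespace Pool.Agent.R688.LOC

universe w u

variable {R : Type u} [Ring R]

section

variable {C : Type*} [Category* C] [Abelian C] [HasDerivedCategory.{w} C]

/-- a morphism of complexes which is zero in the derived category factors through an acyclic
complex -/
theorem factor {K L : CochainComplex C ℤ} (b : K ⟶ L) (hb : DerivedCategory.Q.map b = 0) :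
    ∃ (A : CochainComplex C ℤ) (i : K ⟶ A) (c : A ⟶ L),
      IsZero (DerivedCategory.Q.obj A) ∧ i ≫ c = b := by
  have h1 : DerivedCategory.Qh.map ((HomotopyCategory.quotient C (ComplexShape.up ℤ)).map b) =
      DerivedCategory.Qh.map 0 := by
    rw [Functor.map_zero]
    exact hb
  obtain ⟨Z, s, hs, h⟩ := (MorphismProperty.map_eq_iff_precomp DerivedCategory.Qh
    (HomotopyCategory.quasiIso C (ComplexShape.up ℤ)) _ _).1 h1
  obtain ⟨Z, rfl⟩ := HomotopyCategory.quotient_obj_surjective Z
  obtain ⟨s, rfl⟩ := (HomotopyCategory.quotient _ _).map_surjective s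
  rw [comp_zero, ← Functor.map_comp] at h
  have ho : Homotopy (s ≫ b) 0 := HomotopyCategory.homotopyOfEq _ _ (by
    rw [h, Functor.map_zero])
  have hs' : IsIso (DerivedCategory.Q.map s) := by
    rw [← DerivedCategory.isIso_Qh_map_iff] at hs
    exact hs
  refine ⟨mappingCone s, mappingCone.inr s,
    mappingCone.desc s (Cochain.ofHomotopy ho) b ?_, ?_, ?_⟩
  · rw [δ_ofHomotopy, Cochain.ofHom_zero, sub_zero]
  · have h2 : DerivedCategory.Q.mapTriangle.obj (CochainComplex.mappingCone.triangle s) ∈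
        distTriang (DerivedCategory C) := by
      rw [DerivedCategory.mem_distTriang_iff]
      exact ⟨_, _, _, ⟨Iso.refl _⟩⟩
    exact Triangle.isZero₃_of_isIso₁ _ h2 hs'
  · exact mappingCone.inr_desc _ _ _ _

end

variable [HasDerivedCategory.{w} (ModuleCat.{u} R)] {ι : Type u} [DecidableEq ι]

open DerivedCategory

theorem isZero_Q_iff (K : CochainComplex (ModuleCat.{u} R) ℤ) :
    IsZero (Q.obj K) ↔ QuasiIso (0 : K ⟶ K) := by
  rw [← isIso_Q_map_iff_quasiIso, Functor.map_zero]
  constructor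
  · intro h
    exact ⟨0, h.eq_of_src _ _, h.eq_of_src _ _⟩
  · intro h
    rw [IsZero.iff_id_eq_zero]
    have := IsIso.hom_inv_id (0 : Q.obj K ⟶ Q.obj K)
    rw [zero_comp] at this
    exact this.symm

theorem isZero_dsum (K : ι → CochainComplex (ModuleCat.{u} R) ℤ)
    (hK : ∀ i, IsZero (Q.obj (K i))) : IsZero (Q.obj (dsum K)) := by
  rw [isZero_Q_iff]
  have h1 := quasiIso_dmap (fun i => (0 : K i ⟶ K i)) (fun i => (isZero_Q_iff _).1 (hK i))
  have h2 : dmap (fun i => (0 : K i ⟶ K i)) = 0 := by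
    apply hom_ext'
    intro i
    rw [inc_dmap, zero_comp, comp_zero]
  rwa [h2] at h1

theorem uniq (K : ι → CochainComplex (ModuleCat.{u} R) ℤ)
    (L : CochainComplex (ModuleCat.{u} R) ℤ) (f : Q.obj (dsum K) ⟶ Q.obj L)
    (hf : ∀ i, Q.map (inc K i) ≫ f = 0) : f = 0 := by
  obtain ⟨L', g, s, hs, rfl⟩ := left_fac f
  have h1 : ∀ i, Q.map (inc K i ≫ g) = 0 := by
    intro i
    have := hf i
    rw [← Category.assoc, ← Functor.map_comp] at this
    have h2 := congrArg (fun q => q ≫ Q.map s) this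
    simp only [Category.assoc, IsIso.inv_hom_id, Category.comp_id, zero_comp] at h2
    exact h2
  choose A a c hA hac using fun i => factor (inc K i ≫ g) (h1 i)
  have h2 : g = dmap a ≫ desc A c := by
    apply hom_ext'
    intro i
    rw [← Category.assoc, inc_dmap, Category.assoc, inc_desc, hac]
  have h3 : Q.map g = 0 := by
    rw [h2, Functor.map_comp, (isZero_dsum A hA).eq_of_tgt (Q.map (dmap a)) 0, zero_comp]
  rw [h3, zero_comp]

theorem exist (K : ι → CochainComplex (ModuleCat.{u} R) ℤ)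
    (L : CochainComplex (ModuleCat.{u} R) ℤ) (f : ∀ i, Q.obj (K i) ⟶ Q.obj L) :
    ∃ g : Q.obj (dsum K) ⟶ Q.obj L, ∀ i, Q.map (inc K i) ≫ g = f i := by
  choose K' s hs g hg using fun i => right_fac (f i)
  have h1 : IsIso (Q.map (dmap s)) := by
    rw [isIso_Q_map_iff_quasiIso]
    exact quasiIso_dmap s (fun i => (isIso_Q_map_iff_quasiIso _ (s i)).1 (hs i))
  refine ⟨inv (Q.map (dmap s)) ≫ Q.map (desc K' g), fun i => ?_⟩
  have h2 : Q.map (inc K i) ≫ inv (Q.map (dmap s)) = inv (Q.map (s i)) ≫ Q.map (inc K' i) := by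
    rw [← cancel_mono (Q.map (dmap s)), Category.assoc, Category.assoc, IsIso.inv_hom_id,
      Category.comp_id, ← Functor.map_comp, inc_dmap, Functor.map_comp, IsIso.inv_hom_id_assoc]
  rw [← Category.assoc, h2, Category.assoc, ← Functor.map_comp, inc_desc, hg]

/-- the direct sum of complexes is a coproduct in the derived category -/
theorem isColimit_Q (K : ι → CochainComplex (ModuleCat.{u} R) ℤ) :
    Nonempty (IsColimit (Cofan.mk (Q.obj (dsum K)) (fun i => Q.map (inc K i)))) := by
  have key : ∀ (Y : DerivedCategory (ModuleCat.{u} R)) (f : ∀ i, Q.obj (K i) ⟶ Y),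
      ∃ g : Q.obj (dsum K) ⟶ Y, (∀ i, Q.map (inc K i) ≫ g = f i) ∧
        ∀ g' : Q.obj (dsum K) ⟶ Y, (∀ i, Q.map (inc K i) ≫ g' = f i) → g' = g := by
    intro Y f
    have hess : Q.EssSurj (C := CochainComplex (ModuleCat.{u} R) ℤ) :=
      Localization.essSurj Q (HomologicalComplex.quasiIso (ModuleCat.{u} R) (ComplexShape.up ℤ))
    obtain ⟨L, ⟨e⟩⟩ := hess.mem_essImage Y
    obtain ⟨g, hg⟩ := exist K L (fun i => f i ≫ e.inv)
    refine ⟨g ≫ e.hom, fun i => ?_, fun g' hg' => ?_⟩
    · rw [← Category.assoc, hg, Category.assoc, e.inv_hom_id, Category.comp_id]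
    · rw [← cancel_mono e.inv, Category.assoc, e.hom_inv_id, Category.comp_id, ← sub_eq_zero]
      apply uniq
      intro i
      rw [Preadditive.comp_sub, hg, ← Category.assoc, hg', sub_self]
  choose d hd1 hd2 using key
  exact ⟨Cofan.IsColimit.mk _ (fun s => d s.pt (fun i => s.inj i))
    (fun s i => hd1 _ _ i) (fun s m hm => hd2 _ _ m hm)⟩

end Pool.Agent.R688.LOC
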