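import Mathlib

set_option autoImplicit false

/-!
# The ring of infinitely many formal lines through a point
-/

namespace Pool.Agent.R688.LOC

open PowerSeries

/-- The ring of infinitely many formal lines through a point: the sequences `(a n)` of power series
over `k` which all have the same constant term `c` and are equal to `c` for large `n`. -/
def lines (k : Type) [Field k] : Subring (ℕ → PowerSeries k) where
  carrier := {a | ∃ c : k, (∀ n, constantCoeff (a n) = c) ∧ ∃ N, ∀ n ≥ N, a n = C c}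
  mul_mem' := by
    rintro a b ⟨c, hc, N, hN⟩ ⟨d, hd, M, hM⟩
    refine ⟨c * d, fun n => ?_, max N M, fun n hn => ?_⟩
    · rw [Pi.mul_apply, map_mul, hc, hd]
    · rw [Pi.mul_apply, hN n (le_trans (le_max_left _ _) hn),
        hM n (le_trans (le_max_right _ _) hn), map_mul]
  one_mem' := ⟨1, fun n => by rw [Pi.one_apply, map_one], 0, fun n _ => by
    rw [Pi.one_apply, map_one]⟩
  add_mem' := by
    rintro a b ⟨c, hc, N, hN⟩ ⟨d, hd, M, hM⟩
    refine ⟨c + d, fun n => ?_, max N M, fun n hn => ?_⟩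
    · rw [Pi.add_apply, map_add, hc, hd]
    · rw [Pi.add_apply, hN n (le_trans (le_max_left _ _) hn),
        hM n (le_trans (le_max_right _ _) hn), map_add]
  zero_mem' := ⟨0, fun n => by rw [Pi.zero_apply, map_zero], 0, fun n _ => by
    rw [Pi.zero_apply, map_zero]⟩
  neg_mem' := by
    rintro a ⟨c, hc, N, hN⟩
    refine ⟨-c, fun n => ?_, N, fun n hn => ?_⟩
    · rw [Pi.neg_apply, map_neg, hc]
    · rw [Pi.neg_apply, hN n hn, map_neg]

variable (k : Type) [Field k]

/-- the ring as a type -/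
abbrev Rg : Type := lines k

variable {k}

/-- the coordinates -/
noncomputable def pi (n : ℕ) : Rg k →+* PowerSeries k := (Pi.evalRingHom _ n).comp (lines k).subtype

theorem ext_pi {a b : Rg k} (h : ∀ n, pi n a = pi n b) : a = b :=
  Subtype.ext (funext h)

theorem const_eq (a : Rg k) (n m : ℕ) : constantCoeff (pi n a) = constantCoeff (pi m a) := by
  obtain ⟨c, hc, _⟩ := a.2
  exact (hc n).trans (hc m).symm

theorem exists_bound (a : Rg k) : ∃ N, ∀ n ≥ N, pi n a = C (constantCoeff (pi 0 a)) := by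
  obtain ⟨c, hc, N, hN⟩ := a.2
  refine ⟨N, fun n hn => ?_⟩
  have h1 : constantCoeff (pi 0 a) = c := hc 0
  rw [h1]
  exact hN n hn

/-- elements with given coordinates -/
def mk (a : ℕ → PowerSeries k) (c : k) (h1 : ∀ n, constantCoeff (a n) = c)
    (N : ℕ) (hN : ∀ n ≥ N, a n = C c) : Rg k := ⟨a, c, h1, N, hN⟩

theorem pi_mk (a : ℕ → PowerSeries k) (c : k) (h1 : ∀ n, constantCoeff (a n) = c)
    (N : ℕ) (hN : ∀ n ≥ N, a n = C c) (n : ℕ) : pi n (mk a c h1 N hN) = a n := rfl

theorem pi_surj' (n : ℕ) : Function.Surjective (pi (k := k) n) := by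
  intro f
  refine ⟨mk (fun m => if m = n then f else C (constantCoeff f)) (constantCoeff f) ?_ (n + 1) ?_,
    ?_⟩
  · intro m
    split_ifs
    · rfl
    · exact constantCoeff_C _
  · intro m hm
    rw [if_neg (by omega)]
  · rw [pi_mk, if_pos rfl]

/-- evaluation at the point -/
noncomputable def eps : Rg k →+* k := (constantCoeff (R := k)).comp (pi 0)

theorem eps_eq (a : Rg k) (n : ℕ) : eps a = constantCoeff (pi n a) := const_eq a 0 n

theorem eps_surj : Function.Surjective (eps (k := k)) := by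
  intro c
  obtain ⟨a, ha⟩ := pi_surj' (k := k) 0 (C c)
  refine ⟨a, ?_⟩
  rw [eps_eq a 0, ha]
  exact constantCoeff_C c

variable (k) in
/-- the maximal ideal -/
noncomputable def mm : Ideal (Rg k) := RingHom.ker eps

variable (k) in
/-- the minimal primes -/
noncomputable def pp (n : ℕ) : Ideal (Rg k) := RingHom.ker (pi n)

instance : (mm k).IsMaximal := RingHom.ker_isMaximal_of_surjective _ eps_surj

instance (n : ℕ) : (pp k n).IsPrime := RingHom.ker_isPrime _

theorem mem_mm (a : Rg k) (n : ℕ) : a ∈ mm k ↔ constantCoeff (pi n a) = 0 := by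
  unfold mm
  rw [RingHom.mem_ker, eps_eq a n]

theorem mem_pp (a : Rg k) (n : ℕ) : a ∈ pp k n ↔ pi n a = 0 := Iff.rfl

theorem pp_le (n : ℕ) : pp k n ≤ mm k := by
  intro a ha
  rw [mem_pp] at ha
  rw [mem_mm a n, ha, map_zero]

/-- the uniformizer of the `n`-th line -/
noncomputable def xx (n : ℕ) : Rg k :=
  mk (fun m => if m = n then X else 0) 0 (fun m => by
    split_ifs
    · exact constantCoeff_X
    · exact map_zero _) (n + 1) (fun m hm => by rw [if_neg (by omega), map_zero])

theorem pi_xx_same (n : ℕ) : pi n (xx (k := k) n) = X := by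
  unfold xx
  rw [pi_mk, if_pos rfl]

theorem pi_xx_ne {n m : ℕ} (h : m ≠ n) : pi m (xx (k := k) n) = 0 := by
  unfold xx
  rw [pi_mk, if_neg h]

theorem xx_mem (n : ℕ) : xx n ∈ mm k := by
  rw [mem_mm _ n, pi_xx_same]
  exact constantCoeff_X

theorem xx_notMem (n : ℕ) : xx n ∉ pp k n := by
  rw [mem_pp, pi_xx_same]
  exact X_ne_zero

/-- elements of the maximal ideal are divisible by the uniformizer modulo the minimal prime -/
theorem exists_div (n : ℕ) (a : Rg k) (ha : a ∈ mm k) : ∃ b, a - xx n * b ∈ pp k n := by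
  rw [mem_mm a n] at ha
  obtain ⟨g, hg⟩ := X_dvd_iff.2 ha
  obtain ⟨b, hb⟩ := pi_surj' n g
  refine ⟨b, ?_⟩
  rw [mem_pp, map_sub, map_mul, pi_xx_same, hb, hg, sub_self]

/-- elements outside the minimal prime divide a power of the uniformizer modulo it -/
theorem exists_pow (n : ℕ) (s : Rg k) (hs : s ∉ pp k n) :
    ∃ (j : ℕ) (t : Rg k), xx n ^ j - t * s ∈ pp k n := by
  rw [mem_pp] at hs
  obtain ⟨t, ht⟩ := pi_surj' n (Inv_divided_by_X_pow_order hs)
  refine ⟨(pi n s).order.toNat, t, ?_⟩
  rw [mem_pp, map_sub, map_pow, map_mul, pi_xx_same, ht]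
  have h1 := X_pow_order_mul_divXPowOrder (f := pi n s)
  have h2 := Inv_divided_by_X_pow_order_leftInv hs
  linear_combination (-(X ^ (pi n s).order.toNat)) * h2 + Inv_divided_by_X_pow_order hs * h1

end Pool.Agent.R688.LOC
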