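import Pool.Agent.R688.LOC.Mod

set_option autoImplicit false
set_option linter.unusedSectionVars false
set_option linter.style.haveILetI false

open CategoryTheory Limits

/-!
# Torsion modules in localizing subcategories
-/

namespace Pool.Agent.R688.LOC

universe w

variable {R : Type} [CommRing R] [HasDerivedCategory.{w} (ModuleCat.{0} R)]
  {P : ObjectProperty (DerivedCategory (ModuleCat.{0} R))} (hP : IsLocalizing P)

include hP in
theorem prop_zero (M : Type) [AddCommGroup M] [Module R M] (h : ∀ x : M, x = 0) :
    P (sgl (R := R) M) := by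
  haveI := hP.iso
  haveI := hP.triangulated
  have hsub : Subsingleton M := ⟨fun a b => (h a).trans (h b).symm⟩
  have h1 : IsZero (sgl (R := R) M) := by
    have h2 : IsZero (ModuleCat.of R M) := ModuleCat.isZero_of_subsingleton _
    exact Functor.map_isZero _ h2
  exact P.prop_of_isZero h1

variable (E : Type) [AddCommGroup E] [Module R E] (x : R)

/-- the elements killed by `x ^ j` -/
def kr (j : ℕ) : Submodule R E := LinearMap.ker (LinearMap.lsmul R E (x ^ j))

theorem mem_kr (j : ℕ) (e : E) : e ∈ kr E x j ↔ x ^ j • e = 0 := Iff.rfl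

theorem kr_mono : Monotone (kr E x) := by
  refine monotone_nat_of_le_succ fun j => ?_
  intro e he
  rw [mem_kr] at he ⊢
  rw [pow_succ', mul_smul, he, smul_zero]

include hP in
/-- if `x` acts surjectively on the `x`-power torsion module `E` and the kernel of `x` is in a
localizing subcategory, then so is `E` -/
theorem prop_torsion (hsurj : ∀ e : E, ∃ e', x • e' = e) (htors : ∀ e : E, ∃ j, x ^ j • e = 0)
    (h1 : P (sgl (R := R) (kr E x 1))) : P (sgl (R := R) E) := by
  refine prop_union hP (kr E x) (kr_mono E x) htors ?_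
  intro j
  induction j with
  | zero =>
    apply prop_zero hP
    rintro ⟨e, he⟩
    apply Subtype.ext
    rw [mem_kr, pow_zero, one_smul] at he
    exact he
  | succ j ih =>
    have hmap : ∀ e ∈ kr E x (j + 1), LinearMap.lsmul R E x e ∈ kr E x j := by
      intro e he
      rw [mem_kr] at he ⊢
      rw [pow_succ, mul_smul] at he
      exact he
    refine prop₂ hP (Submodule.inclusion (kr_mono E x (by omega : 1 ≤ j + 1)))
      ((LinearMap.lsmul R E x).restrict hmap) (Submodule.inclusion_injective _) ?_ ?_ h1 ih
    · rintro ⟨e, he⟩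
      obtain ⟨e', rfl⟩ := hsurj e
      refine ⟨⟨e', ?_⟩, rfl⟩
      rw [mem_kr] at he ⊢
      rw [pow_succ, mul_smul]
      exact he
    · rintro ⟨e, he⟩
      constructor
      · intro h
        have h2 : x • e = 0 := congrArg Subtype.val h
        refine ⟨⟨e, ?_⟩, rfl⟩
        rw [mem_kr, pow_one]
        exact h2
      · rintro ⟨⟨e', he'⟩, h⟩
        have h2 : e' = e := congrArg Subtype.val h
        subst h2
        apply Subtype.ext
        rw [mem_kr, pow_one] at he'
        exact he'

include hP in
/-- extensions by cyclic modules -/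
theorem prop_cyclic (I : Ideal R) {B C : Type} [AddCommGroup B] [Module R B] [AddCommGroup C]
    [Module R C] (f : R →ₗ[R] B) (g : B →ₗ[R] C) (hker : ∀ r, f r = 0 ↔ r ∈ I)
    (hg : Function.Surjective g) (hex : ∀ b, g b = 0 ↔ ∃ r, f r = b)
    (h1 : P (sgl (R := R) (R ⧸ I))) (h3 : P (sgl (R := R) C)) : P (sgl (R := R) B) := by
  have hle : I ≤ LinearMap.ker f := fun r hr => (hker r).2 hr
  refine prop₂ hP (Submodule.liftQ I f hle) g ?_ hg ?_ h1 h3
  · rw [injective_iff_map_eq_zero]
    intro r hr
    obtain ⟨r, rfl⟩ := Submodule.Quotient.mk_surjective I r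
    rw [Submodule.liftQ_apply, hker] at hr
    exact (Submodule.Quotient.mk_eq_zero I).2 hr
  · intro b
    rw [hex]
    constructor
    · rintro ⟨r, rfl⟩
      exact ⟨Submodule.Quotient.mk r, Submodule.liftQ_apply _ _ _⟩
    · rintro ⟨r, rfl⟩
      obtain ⟨r, rfl⟩ := Submodule.Quotient.mk_surjective I r
      exact ⟨r, (Submodule.liftQ_apply _ _ _).symm⟩

end Pool.Agent.R688.LOC
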